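import Pool.Agent.H9.AC.Fin
import Pool.Agent.H9.AC.Sep

/-!
# Algebraically closed associative algebras: base fields, differential operators, structure

The definitions are those of `Pool.Agent.Results.MP_4b1745_al.OneVariable`:

* `FreeOver P R I` is the free product `R * P⟨x_i : i ∈ I⟩` of `P`-algebras, presented by generators
  and relations; `const P R I` is the map from `R` to it and `lift`, `hom_ext'` are its universal
  property;
* `evalAt c : FreeOver P R I →ₐ[P] R`, for `c : I → R`, is the homomorphism that is the identity on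
  `R` and sends `x_i` to `c i`;
* `AlgClosedIn P R I` says that for each `f ∈ R * P⟨x_i : i ∈ I⟩` which is not in `R` there is
  `c : I → R` with `evalAt c f = 0`.  A nonzero algebra `R` is algebraically closed if this holds for
  `I = ℕ`.
-/

set_option autoImplicit false

universe u v w

namespace Pool.Agent.Results.MP_4b1745_al.DifferentialOperators

open Pool.Agent.Results.MP_4b1745_al.OneVariable

/-- `R` contains the algebra of differential operators `K[D_0, D_1, …; δ_0, δ_1, …]`, that is the
algebra generated by the field `K` and commuting elements `D_i` with `D_i a - a D_i = δ_i(a)` for `a`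
in `K`, which is a left vector space over `K` with the basis of the monomials
`D^α = D_0^{α_0} D_1^{α_1} ⋯`.  (`f` is the embedding of `K`, `D i` is `D_i`, and `M α` is `D^α`.)  The
constants of `K` are mapped to `P`. -/
structure Contains (K : Type) [Field K] (δ : ℕ → Derivation ℤ K K) (P R : Type) [Field P] [Ring R]
    [Algebra P R] (f : K →+* R) (D : ℕ → R) (M : (ℕ →₀ ℕ) → R) : Prop where
  /-- `D_i a - a D_i = δ_i(a)` -/
  derivation : ∀ i a, D i * f a - f a * D i = f (δ i a)
  /-- the `D_i` commute -/
  comm : ∀ i j, D i * D j = D j * D i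
  /-- the monomials -/
  one : M 0 = 1
  /-- the monomials -/
  mul : ∀ α i, M (α + Finsupp.single i 1) = M α * D i
  /-- the monomials are linearly independent over `K` -/
  independent : ∀ p : (ℕ →₀ ℕ) →₀ K, (p.sum fun α a => f a * M α) = 0 → p = 0
  /-- the constants of `K` are scalars -/
  scalars : ∀ a, (∀ i, δ i a = 0) → f a ∈ Set.range (algebraMap P R)

/-- Every finite subset of `R` commutes with two elements `z`, `w` such that `w z - z w = 1`.  (So `R`
contains infinitely many commuting pairs of this kind, which generate a Weyl algebra.) -/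
def LocalPairs (R : Type) [Ring R] : Prop :=
  ∀ S : Finset R, ∃ z w : R, (∀ s ∈ S, s * z = z * s ∧ s * w = w * s) ∧ w * z - z * w = 1

/-- **Algebraically closed associative algebras.**
(1) They exist: there are a field `P` and a nonzero associative `P`-algebra `R` (embedded in the free
product `R * P⟨x_0, x_1, …⟩`) such that each equation `f = 0`, with `f` in `R * P⟨x_0, x_1, …⟩` and not in
`R`, has a solution in `R`.
(2) Base fields: let `P` be a field of characteristic `0` which contains infinitely many algebraically
independent elements (for instance any uncountable field of characteristic `0`).  There is an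
algebraically closed associative `P`-algebra if and only if `P` is an algebraically closed field; and
then there is one with the cardinality of `P` such that every finite subset commutes with two elements
`z`, `w` with `w z - z w = 1`.
(3) Embedding: let `K` be any field of characteristic `0` and `δ_0, δ_1, …` derivations of `K` which
commute, and such that every element of `K` is killed by almost all of them (for instance finitely
many commuting derivations, or none).  Then the algebra of differential operators
`K[D_0, D_1, …; δ_0, δ_1, …]` embeds in an algebraically closed associative algebra `R` of the same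
cardinality as `K`, in such a way that the constants of `K` are in the base field `P`.  Moreover every
finite subset of `R` commutes with two elements `z`, `w` with `w z - z w = 1`.
(4) Structure: every algebraically closed associative algebra `R` over any field `P` is a division
ring with centre `P`, and `a b - b a = 1` for some `a`, `b` in `R`; every equation `a x - x b = c` has a
solution in `R`, except possibly if `a = b` is in `P`; all equations in any set of unknowns have
solutions; the field `P` is separably closed and contains the zeros in `R` of separable polynomials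
over `P`; and if `P` has characteristic `0`, then the field `P` is algebraically closed, and the
elements of `R` which are algebraic over `P` are in `P`. -/
theorem result :
    (∃ (P R : Type) (_ : Field P) (_ : Ring R) (_ : Algebra P R),
      Nontrivial R ∧ Function.Injective (const P R ℕ) ∧
        ∀ f : FreeOver P R ℕ, f ∉ Set.range (const P R ℕ) → ∃ c : ℕ → R, evalAt c f = 0) ∧
    (∀ (P : Type) [Field P] [CharZero P], (∃ x : ℕ → P, AlgebraicIndependent ℚ x) →
      ((∃ (R : Type) (_ : Ring R) (_ : Algebra P R), Nontrivial R ∧ AlgClosedIn P R ℕ) ↔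
        IsAlgClosed P) ∧
      (IsAlgClosed P → ∃ (R : Type) (_ : Ring R) (_ : Algebra P R),
        Nontrivial R ∧ AlgClosedIn P R ℕ ∧ Cardinal.mk R = Cardinal.mk P ∧ LocalPairs R)) ∧
    (∀ (K : Type) [Field K] [CharZero K] (δ : ℕ → Derivation ℤ K K),
      (∀ i j a, δ i (δ j a) = δ j (δ i a)) → (∀ a, ∃ N, ∀ i, N ≤ i → δ i a = 0) →
      ∃ (P R : Type) (_ : Field P) (_ : Ring R) (_ : Algebra P R),
        Nontrivial R ∧ AlgClosedIn P R ℕ ∧ Cardinal.mk R = Cardinal.mk K ∧
        (∃ (f : K →+* R) (D : ℕ → R) (M : (ℕ →₀ ℕ) → R), Contains K δ P R f D M) ∧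
        LocalPairs R) ∧
    (∀ (P : Type u) (R : Type v) [Field P] [Ring R] [Algebra P R] [Nontrivial R],
      AlgClosedIn P R ℕ →
        (∀ a : R, a ≠ 0 → ∃ b, a * b = 1 ∧ b * a = 1) ∧
        (∀ c : R, (∀ d : R, c * d = d * c) ↔ c ∈ Set.range (algebraMap P R)) ∧
        (∃ a b : R, a * b - b * a = 1) ∧
        (∀ a b c : R, (¬ ∃ r : P, a = algebraMap P R r ∧ b = algebraMap P R r) →
          ∃ x, a * x - x * b = c) ∧
        (∀ I : Type w, AlgClosedIn P R I) ∧
        IsSepClosed P ∧
        (∀ (a : R) (p : Polynomial P), p.Separable → Polynomial.aeval a p = 0 →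
          a ∈ Set.range (algebraMap P R)) ∧
        (CharZero P → IsAlgClosed P ∧
          ∀ a : R, IsAlgebraic P a → a ∈ Set.range (algebraMap P R))) := by
  have key : ∀ (K : Type) [Field K] [CharZero K] (δ : ℕ → Derivation ℤ K K),
      (∀ i j a, δ i (δ j a) = δ j (δ i a)) → (∀ a, ∃ N, ∀ i, N ≤ i → δ i a = 0) →
      ∃ (P R : Type) (_ : Field P) (_ : Ring R) (_ : Algebra P R),
        Nontrivial R ∧ AlgClosedIn P R ℕ ∧ Cardinal.mk R = Cardinal.mk K ∧
        (∃ (f : K →+* R) (D : ℕ → R) (M : (ℕ →₀ ℕ) → R), Contains K δ P R f D M) ∧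
        LocalPairs R := by
    intro K _ _ δ h1 h2
    obtain ⟨R, iR, hR, hc, f, D, M, h⟩ := Pool.Agent.H9.AC.embed K δ h1 h2
    obtain ⟨P, iP, iA, hcen, hac⟩ := Pool.Agent.H9.AC.centre hR
    exact ⟨P, R, iP, iR, iA, hR.nt, hac, hc,
      ⟨f, D, M, h.der, h.com, h.one, h.mul, h.ind, fun a ha => hcen _ (h.cen a ha)⟩, hR.wp⟩
  have str : ∀ (P : Type u) (R : Type v) [Field P] [Ring R] [Algebra P R] [Nontrivial R],
      AlgClosedIn P R ℕ →
        (∀ a : R, a ≠ 0 → ∃ b, a * b = 1 ∧ b * a = 1) ∧
        (∀ c : R, (∀ d : R, c * d = d * c) ↔ c ∈ Set.range (algebraMap P R)) ∧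
        (∃ a b : R, a * b - b * a = 1) ∧
        (∀ a b c : R, (¬ ∃ r : P, a = algebraMap P R r ∧ b = algebraMap P R r) →
          ∃ x, a * x - x * b = c) ∧
        (∀ I : Type w, AlgClosedIn P R I) ∧
        IsSepClosed P ∧
        (∀ (a : R) (p : Polynomial P), p.Separable → Polynomial.aeval a p = 0 →
          a ∈ Set.range (algebraMap P R)) ∧
        (CharZero P → IsAlgClosed P ∧
          ∀ a : R, IsAlgebraic P a → a ∈ Set.range (algebraMap P R)) := by
    intro P R _ _ _ _ h
    obtain ⟨h1, h2, h3, h4⟩ := Pool.Agent.H59.ACS.struct1.{u, v, w} P R h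
    have h5 : ∀ a : R, a ∉ Set.range (algebraMap P R) → ∃ x, a * x - x * a = 1 := by
      intro a ha
      refine h3 a a 1 ?_
      rintro ⟨r, hr, -⟩
      exact ha ⟨r, hr.symm⟩
    have h6 := Pool.Agent.H66.ACS.root2 h
    obtain ⟨h7, h8⟩ := Pool.Agent.H9.AC.struct3 P R h5 h6
    refine ⟨h1, h2, ?_, h3, h4, h7, h8, fun _ => Pool.Agent.H66.ACS.struct2 P R h5 h6⟩
    have h9 := ((OneVariable.result P R).1 h).1
    obtain ⟨a, ha⟩ := not_forall.1 h9
    obtain ⟨x, hx⟩ := h5 a (fun ⟨r, hr⟩ => ha ⟨r, hr⟩)
    exact ⟨a, x, hx⟩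
  refine ⟨?_, ?_, fun K _ _ δ h1 h2 => key K δ h1 h2, fun P R _ _ _ _ h => str P R h⟩
  · obtain ⟨P, R, i1, i2, i3, i4, g0, -⟩ := key ℚ (fun _ => 0) (fun _ _ _ => rfl)
      (fun _ => ⟨0, fun _ _ => rfl⟩)
    refine ⟨P, R, i1, i2, i3, i4, ?_, g0⟩
    intro a b h
    have h' := congrArg (evalAt (fun _ => 0)) h
    rwa [evalAt, lift_const, lift_const] at h'
  · intro P _ _ ⟨x, hx⟩
    have hex : IsAlgClosed P → ∃ (R : Type) (_ : Ring R) (_ : Algebra P R),
        Nontrivial R ∧ AlgClosedIn P R ℕ ∧ Cardinal.mk R = Cardinal.mk P ∧ LocalPairs R :=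
      fun _ =>
      Pool.Agent.H9.AC.base P x hx
    refine ⟨⟨?_, fun h => ?_⟩, hex⟩
    · rintro ⟨R, _, _, _, h⟩
      obtain ⟨h1, h2, h3, h4⟩ := Pool.Agent.H59.ACS.struct1.{0, 0, 0} P R h
      exact (Pool.Agent.H66.ACS.struct2 P R (fun a ha => h3 a a 1 (by
        rintro ⟨r, hr, -⟩
        exact ha ⟨r, hr.symm⟩)) (Pool.Agent.H66.ACS.root2 h)).1
    · obtain ⟨R, i1, i2, h1, h2, -⟩ := hex h
      exact ⟨R, i1, i2, h1, h2⟩

end Pool.Agent.Results.MP_4b1745_al.DifferentialOperators
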